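import Mathlib
import Pool.Graph.R_pool_sql_team_22a80281.Lib.helper11_.Ekeland

set_option autoImplicit false

/-! The Bishop-Phelps-Bollobas theorem for functionals on a real or complex Banach space. -/

namespace Pool.Agent.H28BPB

open Set Filter Topology Metric

section real

variable {E : Type*} [NormedAddCommGroup E] [NormedSpace ℝ E]

/-- a sum rule: a functional which almost supports a convex set at a point is close to a support
functional at this point -/
lemma sum_rule {B : Set E} (hB : Convex ℝ B) {f : E →L[ℝ] ℝ} {y : E} (hy : y ∈ B) {δ : ℝ}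
    (hδ : 0 < δ) (h : ∀ z ∈ B, f z - f y ≤ δ * dist z y) :
    ∃ g : E →L[ℝ] ℝ, ‖g - f‖ ≤ δ ∧ ∀ z ∈ B, g z ≤ g y := by
  have h1 : ConvexOn ℝ univ (fun z : E => δ * dist z y) := by
    simpa using (convexOn_univ_dist y).smul hδ.le
  have h2 : ConcaveOn ℝ B (fun z : E => f z - f y) := by
    refine ⟨hB, fun p _ q _ a b _ _ hab => le_of_eq ?_⟩
    simp only [map_add, map_smul, smul_eq_mul]
    linear_combination (-(f y)) * hab
  obtain ⟨Λ, u, hs, ht⟩ := geometric_hahn_banach_open h1.convex_strict_epigraph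
    (by
      simp only [mem_univ, true_and]
      exact isOpen_lt (by fun_prop) (by fun_prop)) h2.convex_hypograph
    (Set.disjoint_left.2 fun p hp hq => by
      have := h p.1 hq.1
      linarith [hp.2, hq.2])
  set ℓ : E →L[ℝ] ℝ := Λ.comp (ContinuousLinearMap.inl ℝ E ℝ) with hℓ
  set c : ℝ := Λ (0, 1) with hc
  have dec : ∀ (z : E) (t : ℝ), Λ (z, t) = ℓ z + c * t := by
    intro z t
    have : ((z, t) : E × ℝ) = (z, 0) + t • ((0 : E), (1 : ℝ)) := by simp
    rw [this, map_add, map_smul, smul_eq_mul, mul_comm]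
    rfl
  have s1 : ∀ (z : E) (t : ℝ), δ * dist z y < t → ℓ z + c * t < u := fun z t hz => by
    rw [← dec]; exact hs _ ⟨mem_univ _, hz⟩
  have t1 : ∀ z ∈ B, u ≤ ℓ z + c * (f z - f y) := fun z hz => by
    rw [← dec]; exact ht _ ⟨hz, le_rfl⟩
  have hy1 := t1 y hy
  rw [sub_self, mul_zero, add_zero] at hy1
  have hc0 : c < 0 := by
    have := s1 y 1 (by simp)
    linarith
  have s2 : ∀ z : E, ℓ z + c * (δ * dist z y) ≤ u := by
    intro z
    refine le_of_forall_pos_le_add fun ε hε => ?_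
    have := s1 z (δ * dist z y + ε / (-c)) (by
      have : 0 < ε / (-c) := div_pos hε (by linarith)
      linarith)
    have e : c * (δ * dist z y + ε / (-c)) = c * (δ * dist z y) - ε := by
      have hc1 : c ≠ 0 := hc0.ne
      field_simp
      ring
    rw [e] at this
    linarith
  have hu : u = ℓ y := le_antisymm hy1 (by simpa using s2 y)
  have b1 : ∀ v : E, ℓ v ≤ -c * δ * ‖v‖ := by
    intro v
    have := s2 (y + v)
    rw [hu, map_add, dist_eq_norm, add_sub_cancel_left] at this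
    linarith
  have b2 : ‖ℓ‖ ≤ -c * δ := by
    refine ContinuousLinearMap.opNorm_le_bound _ (by nlinarith) fun v => ?_
    rw [Real.norm_eq_abs, abs_le]
    have a1 := b1 v
    have a2 := b1 (-v)
    rw [map_neg, norm_neg] at a2
    constructor <;> linarith
  refine ⟨f - (-c)⁻¹ • ℓ, ?_, fun z hz => ?_⟩
  · rw [sub_sub_cancel_left, norm_neg, norm_smul, norm_inv, Real.norm_of_nonneg (by linarith),
      inv_mul_le_iff₀ (by linarith)]
    exact b2
  · have := t1 z hz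
    rw [hu] at this
    have k : f z - f y ≤ (-c)⁻¹ * (ℓ z - ℓ y) := by
      rw [le_inv_mul_iff₀ (by linarith)]
      linarith
    simp only [sub_apply, smul_apply, smul_eq_mul]
    linarith

/-- the Bishop-Phelps-Bollobas theorem, real case -/
lemma bpb_real [CompleteSpace E] {ε : ℝ} (hε : 0 < ε) (hε1 : ε ≤ 1) {f : E →L[ℝ] ℝ} (hf : ‖f‖ ≤ 1)
    {x₀ : E} (hx₀ : ‖x₀‖ = 1) (h : 1 - ε ^ 2 / 16 < f x₀) :
    ∃ (g : E →L[ℝ] ℝ) (x : E), ‖g‖ = 1 ∧ ‖x‖ = 1 ∧ g x = 1 ∧ ‖x - x₀‖ < ε ∧ ‖g - f‖ < ε := by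
  have fb : ∀ z ∈ closedBall (0 : E) 1, f z ≤ 1 := fun z hz => by
    have h1 := (le_abs_self _).trans (f.le_opNorm z)
    have h2 : ‖z‖ ≤ 1 := by simpa using hz
    nlinarith [norm_nonneg f, norm_nonneg z]
  obtain ⟨y, hy, y1, y2⟩ := Pool.Agent.Lib.helper11.Ekeland.eke (K := closedBall (0 : E) 1)
    isClosed_closedBall (f := fun z => f z) f.continuous (C := 1) fb (k := ε / 4) (by positivity)
    (x := x₀) (by simp [hx₀])
  obtain ⟨g, g1, g2⟩ := sum_rule (convex_closedBall (0 : E) 1) hy (f := f) (δ := ε / 4) (by positivity) y2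
  have hyn : ‖y‖ ≤ 1 := by simpa using hy
  have fy := fb y hy
  have dy : dist y x₀ < ε := by
    have : ε / 4 * dist y x₀ < ε ^ 2 / 16 := by
      have : f y - f x₀ < ε ^ 2 / 16 := by linarith
      exact y1.trans_lt this
    have h3 : dist y x₀ < ε / 4 := by
      by_contra hcon
      push Not at hcon
      nlinarith
    linarith
  -- the support functional attains its norm at y
  have gy : g y = ‖g‖ := by
    apply le_antisymm
    · have h1 := (le_abs_self _).trans (g.le_opNorm y)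
      nlinarith [norm_nonneg g, norm_nonneg y]
    · refine ContinuousLinearMap.opNorm_le_of_unit_norm ?_ fun z hz => ?_
      · have := g2 0 (by simp)
        simpa using this
      · rw [Real.norm_eq_abs, abs_le]
        have a1 := g2 z (by simp [hz])
        have a2 := g2 (-z) (by simp [hz])
        rw [map_neg] at a2
        constructor <;> linarith
  have fy1 : f x₀ ≤ f y := by
    have : 0 ≤ ε / 4 * dist y x₀ := by positivity
    have h3 : ε / 4 * dist y x₀ ≤ f y - f x₀ := y1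
    linarith
  have gl : 1 - ε ^ 2 / 16 - ε / 4 < ‖g‖ := by
    have h1 := (g - f).le_opNorm y
    rw [sub_apply, Real.norm_eq_abs] at h1
    have h2 := (abs_le.1 h1).1
    have h3 : ‖g - f‖ * ‖y‖ ≤ ε / 4 := by
      calc ‖g - f‖ * ‖y‖ ≤ ε / 4 * 1 := mul_le_mul g1 hyn (norm_nonneg _) (by positivity)
        _ = ε / 4 := mul_one _
    rw [gy] at h2
    linarith
  have gu : ‖g‖ ≤ 1 + ε / 4 := by
    have := norm_add_le (g - f) f
    rw [sub_add_cancel] at this
    linarith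
  have g0 : 0 < ‖g‖ := by nlinarith
  have yn : ‖y‖ = 1 := by
    apply le_antisymm hyn
    have h1 := (le_abs_self _).trans (g.le_opNorm y)
    rw [gy] at h1
    by_contra hcon
    push Not at hcon
    nlinarith
  refine ⟨‖g‖⁻¹ • g, y, ?_, yn, ?_, by rwa [← dist_eq_norm], ?_⟩
  · rw [norm_smul, norm_inv, norm_norm, inv_mul_cancel₀ g0.ne']
  · rw [smul_apply, gy, smul_eq_mul, inv_mul_cancel₀ g0.ne']
  · have e1 : ‖g‖⁻¹ • g - f = (‖g‖⁻¹ - 1) • g + (g - f) := by module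
    have e2 : ‖(‖g‖⁻¹ - 1) • g‖ = |1 - ‖g‖| := by
      rw [norm_smul, Real.norm_eq_abs, ← abs_of_pos g0, ← abs_mul, abs_of_pos g0]
      congr 1
      rw [sub_mul, inv_mul_cancel₀ g0.ne', one_mul]
    rw [e1]
    have e3 : |1 - ‖g‖| ≤ ε ^ 2 / 16 + ε / 4 := by
      rw [abs_le]; constructor <;> nlinarith
    have := norm_add_le ((‖g‖⁻¹ - 1) • g) (g - f)
    rw [e2] at this
    nlinarith

end real

section rclike

variable {𝕜 : Type*} [RCLike 𝕜] {X : Type*} [NormedAddCommGroup X] [NormedSpace 𝕜 X]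

/-- **The Bishop-Phelps-Bollobas theorem** for functionals on a real or complex Banach space. -/
theorem bpb_functional [CompleteSpace X] {ε : ℝ} (hε : 0 < ε) (hε1 : ε ≤ 1) {f : StrongDual 𝕜 X}
    (hf : ‖f‖ ≤ 1) {x₀ : X} (hx₀ : ‖x₀‖ = 1) (h : 1 - ε ^ 2 / 16 < ‖f x₀‖) :
    ∃ (g : StrongDual 𝕜 X) (x : X), ‖g‖ ≤ 1 ∧ ‖x‖ = 1 ∧ ‖g x‖ = 1 ∧ ‖x - x₀‖ < ε ∧ ‖g - f‖ < ε := by
  let _ : NormedSpace ℝ X := NormedSpace.restrictScalars ℝ 𝕜 X
  have _ : IsScalarTower ℝ 𝕜 X := RestrictScalars.isScalarTower ℝ 𝕜 X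
  -- a rotation
  obtain ⟨l, l1, l2⟩ : ∃ l : 𝕜, ‖l‖ = 1 ∧ l * f x₀ = ((‖f x₀‖ : ℝ) : 𝕜) := by
    have h0 : f x₀ ≠ 0 := by
      intro h0
      rw [h0, norm_zero] at h
      nlinarith
    have n0 : ‖f x₀‖ ≠ 0 := norm_ne_zero_iff.2 h0
    refine ⟨((‖f x₀‖ : ℝ) : 𝕜) / f x₀, ?_, div_mul_cancel₀ _ h0⟩
    rw [norm_div, RCLike.norm_ofReal, abs_norm, div_self n0]
  have l0 : l ≠ 0 := norm_pos_iff.1 (by rw [l1]; exact one_pos)
  let Ψ : StrongDual ℝ X ≃ₗᵢ[ℝ] StrongDual 𝕜 X := StrongDual.extendRCLikeₗᵢ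
  have hΨ : ∀ (F : StrongDual 𝕜 X) (x : X), Ψ.symm F x = RCLike.re (F x) := fun F x => rfl
  have frn : ‖Ψ.symm (l • f)‖ ≤ 1 := by
    rw [LinearIsometryEquiv.norm_map, norm_smul, l1, one_mul]
    exact hf
  obtain ⟨g, x, g1, x1, gx, xx, gf⟩ := bpb_real hε hε1 frn hx₀ (by
    rw [hΨ, smul_apply, smul_eq_mul, l2, RCLike.ofReal_re]; exact h)
  have G1 : ‖Ψ g‖ = 1 := by rw [LinearIsometryEquiv.norm_map, g1]
  have Gx : ‖(Ψ g) x‖ = 1 := by
    apply le_antisymm
    · exact ((Ψ g).le_opNorm x).trans (by rw [G1, x1, one_mul])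
    · have h1 : RCLike.re ((Ψ g) x) = 1 := by rw [← hΨ, LinearIsometryEquiv.symm_apply_apply, gx]
      rw [← h1]
      exact RCLike.re_le_norm _
  have Gf : ‖Ψ g - l • f‖ < ε := by
    have : Ψ g - l • f = Ψ (g - Ψ.symm (l • f)) := by
      rw [map_sub, LinearIsometryEquiv.apply_symm_apply]
    rw [this, LinearIsometryEquiv.norm_map]
    exact gf
  refine ⟨l⁻¹ • Ψ g, x, ?_, x1, ?_, xx, ?_⟩
  · rw [norm_smul, norm_inv, l1, G1]; norm_num
  · rw [smul_apply, norm_smul, norm_inv, l1, Gx]; norm_num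
  · have : l⁻¹ • Ψ g - f = l⁻¹ • (Ψ g - l • f) := by
      rw [smul_sub, inv_smul_smul₀ l0]
    rw [this, norm_smul, norm_inv, l1, inv_one, one_mul]
    exact Gf

end rclike

end Pool.Agent.H28BPB
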