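import Mathlib
import Pool.Graph.R_pool_sql_team_ae5b0c61.H90.RangeDefs
import Pool.Agent.H28BPB.Functional

set_option autoImplicit false

/-! Every real or complex Banach space is one-complemented in a Banach space with the property beta with
constant zero; the Bishop-Phelps-Bollobas properties of operators into such spaces. -/

namespace Pool.Agent.H28BPB

open Set Filter Topology Metric
open scoped ENNReal
open Pool.Agent.H90.RangeDefs

universe u v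

section defs

/-- Lindenstrauss' property beta with the constant zero: there are norm-one functionals `φ n` and norm-one
vectors `d n` which are biorthogonal, and the norm of every vector `y` is the least upper bound of the numbers
`‖φ n y‖`. -/
def BetaZero (𝕜 : Type) [RCLike 𝕜] (Y : Type u) [NormedAddCommGroup Y] [NormedSpace 𝕜 Y] : Prop :=
  ∃ (Γ : Type u) (φ : Γ → StrongDual 𝕜 Y) (d : Γ → Y),
    (∀ n, ‖φ n‖ = 1 ∧ ‖d n‖ = 1 ∧ φ n (d n) = 1) ∧ (∀ n m, n ≠ m → φ n (d m) = 0) ∧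
    ∀ y, IsLUB (range fun n => ‖φ n y‖) ‖y‖

end defs

section env

variable (𝕜 : Type) [RCLike 𝕜] (A : Type u) [NormedAddCommGroup A] [NormedSpace 𝕜 A]

/-- the index set -/
abbrev Idx : Type u := {γ : StrongDual 𝕜 A // ‖γ‖ ≤ 1} × ℕ

/-- bounded families -/
abbrev Bd : Type u := lp (fun _ : Idx 𝕜 A => 𝕜) ∞

/-- the range space -/
def Env : Submodule 𝕜 (A × Bd 𝕜 A) where
  carrier := {p | ∀ γ, Tendsto (fun n => p.2 (γ, n)) atTop (𝓝 (γ.1 p.1))}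
  zero_mem' γ := by simp
  add_mem' h1 h2 γ := by simpa using (h1 γ).add (h2 γ)
  smul_mem' c _ h γ := by simpa using (h γ).const_mul c

variable {𝕜 A}

lemma ev_le (h : Bd 𝕜 A) (i : Idx 𝕜 A) : ‖h i‖ ≤ ‖h‖ := lp.norm_apply_le_norm ENNReal.top_ne_zero h i

lemma fn_le (γ : {γ : StrongDual 𝕜 A // ‖γ‖ ≤ 1}) (a : A) : ‖γ.1 a‖ ≤ ‖a‖ := by
  simpa using γ.1.le_of_opNorm_le γ.2 a

lemma env_closed : IsClosed (Env 𝕜 A : Set (A × Bd 𝕜 A)) := by
  refine isClosed_of_closure_subset fun p hp γ => Metric.tendsto_nhds.2 fun ε hε => ?_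
  obtain ⟨q, hq, d⟩ := Metric.mem_closure_iff.1 hp (ε / 3) (by positivity)
  rw [dist_eq_norm] at d
  filter_upwards [Metric.tendsto_nhds.1 (hq γ) (ε / 3) (by positivity)] with n hn
  have h1 : dist (p.2 (γ, n)) (q.2 (γ, n)) < ε / 3 := by
    rw [dist_eq_norm]
    exact (ev_le (p.2 - q.2) (γ, n)).trans_lt ((norm_snd_le (p - q)).trans_lt d)
  have h2 : dist (γ.1 q.1) (γ.1 p.1) < ε / 3 := by
    rw [dist_comm, dist_eq_norm, ← map_sub]
    exact (fn_le γ (p.1 - q.1)).trans_lt ((norm_fst_le (p - q)).trans_lt d)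
  have h3 := dist_triangle4 (p.2 (γ, n)) (q.2 (γ, n)) (γ.1 q.1) (γ.1 p.1)
  linarith

lemma env_le (p : Env 𝕜 A) {c : ℝ} (h : ∀ i, ‖p.1.2 i‖ ≤ c) : ‖p‖ ≤ c := by
  obtain ⟨g, g1, g2⟩ := exists_dual_vector'' 𝕜 p.1.1
  refine max_le ?_ (lp.norm_le_of_forall_le ((norm_nonneg _).trans (h (⟨g, g1⟩, 0))) h)
  have h3 := le_of_tendsto' (p.2 ⟨g, g1⟩).norm fun n => h (⟨g, g1⟩, n)
  simpa [g2] using h3

/-- coordinate functional -/
noncomputable def co (i : Idx 𝕜 A) : StrongDual 𝕜 (Env 𝕜 A) :=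
  LinearMap.mkContinuous ⟨⟨fun p => p.1.2 i, fun _ _ => rfl⟩, fun _ _ => rfl⟩ 1 fun p => by
    rw [one_mul]; exact (ev_le _ i).trans (norm_snd_le p.1)

lemma co_apply (i : Idx 𝕜 A) (p : Env 𝕜 A) : co i p = p.1.2 i := rfl

lemma co_le (i : Idx 𝕜 A) (p : Env 𝕜 A) : ‖co i p‖ ≤ ‖p‖ := (ev_le _ i).trans (norm_snd_le p.1)

/-- canonical lift -/
noncomputable def lift : A →ₗᵢ[𝕜] Env 𝕜 A where
  toFun a := ⟨(a, ⟨fun i => i.1.1 a, memℓp_infty ⟨‖a‖, by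
    rintro _ ⟨i, rfl⟩; exact fn_le i.1 a⟩⟩), fun _ => tendsto_const_nhds⟩
  map_add' a b := Subtype.ext (Prod.ext rfl (lp.ext (funext fun i => i.1.1.map_add a b)))
  map_smul' c a := Subtype.ext (Prod.ext rfl (lp.ext (funext fun i => i.1.1.map_smul c a)))
  norm_map' a := le_antisymm (env_le _ fun i => fn_le i.1 a) (le_max_left _ _)

/-- the projection -/
noncomputable def pr : Env 𝕜 A →L[𝕜] Env 𝕜 A :=
  LinearMap.mkContinuous
    (lift.toLinearMap ∘ₗ LinearMap.fst 𝕜 _ _ ∘ₗ (Env 𝕜 A).subtype) 1 fun p => by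
      rw [one_mul]
      exact (lift.norm_map _).trans_le (norm_fst_le p.1)

lemma pr_apply (p : Env 𝕜 A) : pr p = (lift : A →ₗᵢ[𝕜] Env 𝕜 A) p.1.1 := rfl

lemma pr_lift (a : A) : pr ((lift : A →ₗᵢ[𝕜] Env 𝕜 A) a) = (lift : A →ₗᵢ[𝕜] Env 𝕜 A) a := rfl

lemma exists_unit (i : Idx 𝕜 A) : ∃ e : Env 𝕜 A, co i e = 1 ∧ ∀ j, j ≠ i → co j e = 0 := by
  classical
  refine ⟨⟨(0, lp.single ∞ i 1), fun γ => ?_⟩, ?_, fun j hj => ?_⟩
  · rw [map_zero]
    exact tendsto_const_nhds.congr' ((eventually_gt_atTop i.2).mono fun n hn =>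
      (lp.single_apply_ne (E := fun _ => 𝕜) ∞ i 1 (j := (γ, n))
        fun h => hn.ne' (congrArg Prod.snd h)).symm)
  · exact (lp.single_apply ∞ i _ i).trans (by simp)
  · exact (lp.single_apply_ne (E := fun _ => 𝕜) ∞ i 1 hj)

lemma env_beta : BetaZero 𝕜 (Env 𝕜 A) := by
  choose d d1 d0 using exists_unit (𝕜 := 𝕜) (A := A)
  have dn : ∀ n, ‖d n‖ = 1 := by
    intro n
    apply le_antisymm
    · refine env_le _ fun j => ?_
      rw [← co_apply]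
      by_cases h : j = n
      · rw [h, d1]; simp
      · rw [d0 n j h]; simp
    · have := co_le n (d n)
      rw [d1] at this
      simpa using this
  have cn : ∀ n, ‖co (𝕜 := 𝕜) (A := A) n‖ ≤ 1 := fun n =>
    ContinuousLinearMap.opNorm_le_bound _ zero_le_one fun p => by rw [one_mul]; exact co_le n p
  refine ⟨Idx 𝕜 A, co, d, fun n => ⟨le_antisymm (cn n) ?_, dn n, d1 n⟩, fun n m h => d0 m n h,
    fun y => ⟨?_, fun c hc => env_le y fun i => hc ⟨i, rfl⟩⟩⟩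
  · have := (co n).le_opNorm (d n)
    rw [d1, dn, mul_one] at this
    simpa using this
  · rintro _ ⟨i, rfl⟩
    exact co_le i y

/-- every nontrivial Banach space is one-complemented in a Banach space with property beta with constant zero -/
theorem exists_envelope (𝕜 : Type) [RCLike 𝕜] (A : Type u) [NormedAddCommGroup A] [NormedSpace 𝕜 A]
    [CompleteSpace A] [Nontrivial A] :
    ∃ (Y : Type u) (_ : NormedAddCommGroup Y) (_ : NormedSpace 𝕜 Y) (_ : CompleteSpace Y)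
      (Y₁ : Submodule 𝕜 Y), OneCompl Y₁ ∧ Nonempty (A ≃ₗᵢ[𝕜] Y₁) ∧ BetaZero 𝕜 Y := by
  let L : A →ₗᵢ[𝕜] Env 𝕜 A := lift
  refine ⟨Env 𝕜 A, inferInstance, inferInstance, env_closed.completeSpace_coe, LinearMap.range L.toLinearMap,
    ⟨?_, pr, fun y => rfl, ?_, ?_⟩, ⟨L.equivRange⟩, env_beta⟩
  · exact L.isometry.isClosedEmbedding.isClosed_range
  · ext y
    constructor
    · rintro ⟨p, rfl⟩; exact ⟨p.1.1, rfl⟩
    · rintro ⟨a, rfl⟩; exact ⟨L a, rfl⟩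
  · apply le_antisymm
    · refine ContinuousLinearMap.opNorm_le_bound _ zero_le_one fun p => ?_
      rw [one_mul]
      exact (L.norm_map p.1.1).trans_le (norm_fst_le p.1)
    · obtain ⟨a, ha⟩ := exists_ne (0 : A)
      have h1 := (pr (𝕜 := 𝕜) (A := A)).le_opNorm (L a)
      have h2 : pr (L a) = L a := rfl
      rw [h2, L.norm_map] at h1
      exact (le_mul_iff_one_le_left (norm_pos_iff.2 ha)).1 h1

end env

section props

variable {𝕜 : Type} [RCLike 𝕜]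

/-- correcting one coordinate of an operator -/
lemma correct {X : Type v} [NormedAddCommGroup X] [NormedSpace 𝕜 X] {Y : Type u} [NormedAddCommGroup Y]
    [NormedSpace 𝕜 Y] {Γ : Type u} {φ : Γ → StrongDual 𝕜 Y} {d : Γ → Y}
    (h1 : ∀ n, ‖φ n‖ = 1 ∧ ‖d n‖ = 1 ∧ φ n (d n) = 1) (h2 : ∀ n m, n ≠ m → φ n (d m) = 0)
    (h3 : ∀ y, IsLUB (range fun n => ‖φ n y‖) ‖y‖) {T : X →L[𝕜] Y} (hT : ‖T‖ = 1) (n : Γ)
    {g : StrongDual 𝕜 X} (g1 : ‖g‖ ≤ 1) {x : X} (x1 : ‖x‖ = 1) (gx : ‖g x‖ = 1) :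
    ∃ S : X →L[𝕜] Y, ‖S‖ = 1 ∧ ‖S x‖ = 1 ∧ ‖S - T‖ ≤ ‖g - (φ n).comp T‖ := by
  have hφ : ∀ m y, ‖φ m y‖ ≤ ‖y‖ := fun m y => (h3 y).1 ⟨m, rfl⟩
  have hle : ∀ y M, (∀ m, ‖φ m y‖ ≤ M) → ‖y‖ ≤ M := fun y M h => (h3 y).2 (by
    rintro _ ⟨m, rfl⟩; exact h m)
  have Tv : ∀ m v, ‖φ m (T v)‖ ≤ 1 * ‖v‖ := fun m v =>
    (hφ m _).trans (T.le_of_opNorm_le hT.le v)
  let S : X →L[𝕜] Y := T + (g - (φ n).comp T).smulRight (d n)
  have Sn : ∀ v, φ n (S v) = g v := fun v => by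
    have : S v = T v + (g v - φ n (T v)) • d n := rfl
    rw [this, map_add, map_smul, (h1 n).2.2]; simp
  have Sm : ∀ m v, m ≠ n → φ m (S v) = φ m (T v) := fun m v hm => by
    have : S v = T v + (g v - φ n (T v)) • d n := rfl
    rw [this, map_add, map_smul, h2 m n hm]; simp
  have S1 : ‖S‖ ≤ 1 := ContinuousLinearMap.opNorm_le_bound _ zero_le_one fun v =>
    hle _ _ fun m => by
      by_cases hm : m = n
      · rw [hm, Sn]; exact g.le_of_opNorm_le g1 v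
      · rw [Sm m v hm]; exact Tv m v
  have S2 : 1 ≤ ‖S x‖ := by
    have := hφ n (S x)
    rwa [Sn, gx] at this
  have S3 : ‖S x‖ ≤ ‖S‖ := by simpa [x1] using S.le_opNorm x
  refine ⟨S, by linarith, by linarith, ?_⟩
  have : S - T = (g - (φ n).comp T).smulRight (d n) := add_sub_cancel_left _ _
  rw [this, ContinuousLinearMap.norm_smulRight_apply, (h1 n).2.1, mul_one]

/-- a large coordinate -/
lemma exists_coord {Y : Type u} [NormedAddCommGroup Y] [NormedSpace 𝕜 Y] {Γ : Type u}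
    {φ : Γ → StrongDual 𝕜 Y} (h3 : ∀ y, IsLUB (range fun n => ‖φ n y‖) ‖y‖) {y : Y} {c : ℝ}
    (h : c < ‖y‖) : ∃ n, c < ‖φ n y‖ := by
  by_contra hc
  push Not at hc
  exact absurd ((h3 y).2 (by rintro _ ⟨m, rfl⟩; exact hc m)) (not_le.2 h)

/-- **Spaces with property beta with constant zero are universal ranges for the BPBp.** -/
theorem BetaZero.bpbp {Y : Type u} [NormedAddCommGroup Y] [NormedSpace 𝕜 Y] (hY : BetaZero 𝕜 Y)
    (X : Type v) [NormedAddCommGroup X] [NormedSpace 𝕜 X] [CompleteSpace X] : BPBp 𝕜 X Y := by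
  obtain ⟨Γ, φ, d, h1, h2, h3⟩ := hY
  intro ε hε
  have hε' : 0 < min ε 1 := lt_min hε one_pos
  refine ⟨(min ε 1) ^ 2 / 16, by positivity, fun T x₀ hT hx h => ?_⟩
  obtain ⟨n, hn⟩ := exists_coord h3 h
  have hf : ‖(φ n).comp T‖ ≤ 1 := ContinuousLinearMap.opNorm_le_bound _ zero_le_one fun v =>
    ((h3 _).1 ⟨n, rfl⟩ : ‖φ n (T v)‖ ≤ ‖T v‖).trans (T.le_of_opNorm_le hT.le v)
  obtain ⟨g, x, g1, x1, gx, xx, gf⟩ := bpb_functional hε' (min_le_right _ _) hf hx hn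
  obtain ⟨S, s1, s2, s3⟩ := correct h1 h2 h3 hT n g1 x1 gx
  exact ⟨S, x, x1, s1, s2, xx.trans_le (min_le_left _ _), s3.trans_lt (gf.trans_le (min_le_left _ _))⟩

/-- the pointwise property for functionals of norm at most one -/
lemma point_norm {X : Type v} [NormedAddCommGroup X] [NormedSpace 𝕜 X] (h : PointBPB 𝕜 X 𝕜) {ε : ℝ}
    (hε : 0 < ε) : ∃ η : ℝ, 0 < η ∧ ∀ (f : StrongDual 𝕜 X) (x : X), ‖f‖ ≤ 1 → ‖x‖ = 1 →
      1 - η < ‖f x‖ → ∃ g : StrongDual 𝕜 X, ‖g‖ ≤ 1 ∧ ‖g x‖ = 1 ∧ ‖g - f‖ < ε := by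
  obtain ⟨η, hη, H⟩ := h (ε / 2) (by positivity)
  refine ⟨min η (min (ε / 2) (1 / 2)), by positivity, fun f x f1 x1 hf => ?_⟩
  have a1 : 1 - η < ‖f x‖ := by linarith [min_le_left η (min (ε / 2) (1 / 2))]
  have a2 : 1 - ε / 2 < ‖f x‖ := by
    linarith [min_le_right η (min (ε / 2) (1 / 2)), min_le_left (ε / 2) (1 / 2 : ℝ)]
  have a3 : 1 / 2 < ‖f x‖ := by
    linarith [min_le_right η (min (ε / 2) (1 / 2)), min_le_right (ε / 2) (1 / 2 : ℝ)]
  have a4 : ‖f x‖ ≤ ‖f‖ := by simpa [x1] using f.le_opNorm x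
  have f0 : 0 < ‖f‖ := by linarith
  set s : 𝕜 := ((‖f‖⁻¹ : ℝ) : 𝕜) with hs
  have sn : ‖s‖ = ‖f‖⁻¹ := by rw [hs, RCLike.norm_ofReal, abs_of_pos (by positivity)]
  have b1 : ‖s • f‖ = 1 := by rw [norm_smul, sn, inv_mul_cancel₀ f0.ne']
  have b2 : ‖f x‖ ≤ ‖(s • f) x‖ := by
    rw [smul_apply, norm_smul, sn]
    exact le_mul_of_one_le_left (norm_nonneg _) ((one_le_inv₀ f0).2 f1)
  obtain ⟨g, g1, g2, g3⟩ := H (s • f) x b1 x1 (by linarith)
  refine ⟨g, g1.le, g2, ?_⟩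
  have b3 : ‖s • f - f‖ = 1 - ‖f‖ := by
    have : s • f - f = (s - 1) • f := by ext v; simp [sub_mul]
    have e : s - 1 = (((‖f‖⁻¹ - 1 : ℝ)) : 𝕜) := by rw [hs]; push_cast; ring
    rw [this, norm_smul, e, RCLike.norm_ofReal, abs_of_nonneg (by
      have := (one_le_inv₀ f0).2 f1
      linarith), sub_mul, inv_mul_cancel₀ f0.ne', one_mul]
  have b4 := norm_add_le (g - s • f) (s • f - f)
  rw [sub_add_sub_cancel, b3] at b4
  linarith

/-- the pointwise property of operators into a space with property beta with constant zero -/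
theorem BetaZero.point {Y : Type u} [NormedAddCommGroup Y] [NormedSpace 𝕜 Y] (hY : BetaZero 𝕜 Y)
    {X : Type v} [NormedAddCommGroup X] [NormedSpace 𝕜 X] (h : PointBPB 𝕜 X 𝕜) : PointBPB 𝕜 X Y := by
  obtain ⟨Γ, φ, d, h1, h2, h3⟩ := hY
  intro ε hε
  obtain ⟨η, hη, H⟩ := point_norm h hε
  refine ⟨η, hη, fun T x₀ hT hx h => ?_⟩
  obtain ⟨n, hn⟩ := exists_coord h3 h
  have hf : ‖(φ n).comp T‖ ≤ 1 := ContinuousLinearMap.opNorm_le_bound _ zero_le_one fun v =>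
    ((h3 _).1 ⟨n, rfl⟩ : ‖φ n (T v)‖ ≤ ‖T v‖).trans (T.le_of_opNorm_le hT.le v)
  obtain ⟨g, g1, gx, gf⟩ := H _ _ hf hx hn
  obtain ⟨S, s1, s2, s3⟩ := correct h1 h2 h3 hT n g1 hx gx
  exact ⟨S, s1, s2, s3.trans_lt gf⟩

/-- the pointwise property for one nontrivial range implies it for functionals -/
theorem point_functional {Y : Type u} [NormedAddCommGroup Y] [NormedSpace 𝕜 Y] [Nontrivial Y]
    {X : Type v} [NormedAddCommGroup X] [NormedSpace 𝕜 X] (h : PointBPB 𝕜 X Y) : PointBPB 𝕜 X 𝕜 := by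
  obtain ⟨y, hy⟩ : ∃ y : Y, ‖y‖ = 1 := by
    obtain ⟨z, hz⟩ := exists_ne (0 : Y)
    exact ⟨((‖z‖⁻¹ : ℝ) : 𝕜) • z, by
      rw [norm_smul, RCLike.norm_ofReal, abs_of_pos (by positivity),
        inv_mul_cancel₀ (norm_ne_zero_iff.2 hz)]⟩
  intro ε hε
  have hε' : 0 < min (ε / 2) (1 / 2) := by positivity
  have m1 := min_le_left (ε / 2) (1 / 2 : ℝ)
  have m2 := min_le_right (ε / 2) (1 / 2 : ℝ)
  obtain ⟨η, hη, H⟩ := h _ hε'
  refine ⟨η, hη, fun f x f1 x1 hf => ?_⟩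
  obtain ⟨S, s1, s2, s3⟩ := H (f.smulRight y) x
    (by rw [ContinuousLinearMap.norm_smulRight_apply, f1, hy, one_mul]) x1
    (by rw [ContinuousLinearMap.smulRight_apply, norm_smul, hy, mul_one]; exact hf)
  obtain ⟨ψ, p1, p2⟩ := exists_dual_vector'' 𝕜 (S x)
  rw [s2, RCLike.ofReal_one] at p2
  set a : 𝕜 := ψ y with ha
  have a1 : ‖a‖ ≤ 1 := by simpa [hy] using ψ.le_of_opNorm_le p1 y
  have k1 : ‖ψ.comp S - a • f‖ ≤ ‖S - f.smulRight y‖ := by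
    have : ψ.comp S - a • f = ψ.comp (S - f.smulRight y) := by
      ext v
      simp [ha, mul_comm]
    rw [this]
    refine (ψ.opNorm_comp_le _).trans ?_
    exact mul_le_of_le_one_left (norm_nonneg _) p1
  have k2 : 1 - min (ε / 2) (1 / 2) < ‖a‖ := by
    have b1 := (ψ.comp S - a • f).le_opNorm x
    rw [x1, mul_one, sub_apply, smul_apply, ContinuousLinearMap.comp_apply, p2] at b1
    have b2 := norm_sub_norm_le (1 : 𝕜) (a • f x)
    have b3 : ‖a • f x‖ ≤ ‖a‖ := by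
      rw [norm_smul]
      exact mul_le_of_le_one_right (norm_nonneg _) (by simpa [x1, f1] using f.le_opNorm x)
    rw [norm_one] at b2
    linarith
  have a0 : a ≠ 0 := norm_pos_iff.1 (by linarith)
  obtain ⟨l, l1, l2⟩ : ∃ l : 𝕜, ‖l‖ = 1 ∧ l * a = ((‖a‖ : ℝ) : 𝕜) :=
    ⟨((‖a‖ : ℝ) : 𝕜) / a, by
      rw [norm_div, RCLike.norm_ofReal, abs_norm, div_self (norm_ne_zero_iff.2 a0)], div_mul_cancel₀ _ a0⟩
  have q1 : ‖(l • ψ.comp S) x‖ = 1 := by
    rw [smul_apply, norm_smul, l1, ContinuousLinearMap.comp_apply, p2, norm_one, one_mul]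
  have q2 : ‖l • ψ.comp S‖ ≤ 1 := by
    rw [norm_smul, l1, one_mul]
    refine (ψ.opNorm_comp_le _).trans ?_
    rw [s1, mul_one]; exact p1
  have q3 : ‖(l • ψ.comp S) x‖ ≤ ‖l • ψ.comp S‖ := by simpa [x1] using (l • ψ.comp S).le_opNorm x
  refine ⟨l • ψ.comp S, by linarith, q1, ?_⟩
  have e : l • ψ.comp S - f = l • (ψ.comp S - a • f) + ((((‖a‖ - 1 : ℝ)) : 𝕜)) • f := by
    rw [smul_sub, smul_smul, l2]
    push_cast
    rw [sub_smul, one_smul]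
    abel
  rw [e]
  refine (norm_add_le _ _).trans_lt ?_
  rw [norm_smul, norm_smul, l1, one_mul, f1, mul_one, RCLike.norm_ofReal, abs_of_nonpos (by linarith)]
  linarith

/-- transfer of the BPBp along an isometry of the range -/
lemma bpbp_transfer {X : Type v} [NormedAddCommGroup X] [NormedSpace 𝕜 X] {A Y : Type u}
    [NormedAddCommGroup A] [NormedSpace 𝕜 A] [NormedAddCommGroup Y] [NormedSpace 𝕜 Y] (J : A ≃ₗᵢ[𝕜] Y)
    (h : BPBp 𝕜 X Y) : BPBp 𝕜 X A := by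
  have nc : ∀ T : X →L[𝕜] A, ‖(J : A →L[𝕜] Y).comp T‖ = ‖T‖ := fun T =>
    J.toLinearIsometry.norm_toContinuousLinearMap_comp
  have nc' : ∀ T : X →L[𝕜] Y, ‖(J.symm : Y →L[𝕜] A).comp T‖ = ‖T‖ := fun T =>
    J.symm.toLinearIsometry.norm_toContinuousLinearMap_comp
  intro ε hε
  obtain ⟨η, hη, H⟩ := h ε hε
  refine ⟨η, hη, fun T x₀ hT hx h => ?_⟩
  obtain ⟨S, x, x1, s1, s2, xx, s3⟩ := H ((J : A →L[𝕜] Y).comp T) x₀ (by rw [nc, hT]) hx
    (by simpa using h)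
  refine ⟨(J.symm : Y →L[𝕜] A).comp S, x, x1, by rw [nc', s1], by simpa using s2, xx, ?_⟩
  have : (J.symm : Y →L[𝕜] A).comp S - T = (J.symm : Y →L[𝕜] A).comp (S - (J : A →L[𝕜] Y).comp T) := by
    ext v; simp
  rw [this, nc']
  exact s3

/-- transfer of the pointwise property along an isometry of the range -/
lemma point_transfer {X : Type v} [NormedAddCommGroup X] [NormedSpace 𝕜 X] {A Y : Type u}
    [NormedAddCommGroup A] [NormedSpace 𝕜 A] [NormedAddCommGroup Y] [NormedSpace 𝕜 Y] (J : A ≃ₗᵢ[𝕜] Y)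
    (h : PointBPB 𝕜 X Y) : PointBPB 𝕜 X A := by
  have nc : ∀ T : X →L[𝕜] A, ‖(J : A →L[𝕜] Y).comp T‖ = ‖T‖ := fun T =>
    J.toLinearIsometry.norm_toContinuousLinearMap_comp
  have nc' : ∀ T : X →L[𝕜] Y, ‖(J.symm : Y →L[𝕜] A).comp T‖ = ‖T‖ := fun T =>
    J.symm.toLinearIsometry.norm_toContinuousLinearMap_comp
  intro ε hε
  obtain ⟨η, hη, H⟩ := h ε hε
  refine ⟨η, hη, fun T x₀ hT hx h => ?_⟩
  obtain ⟨S, s1, s2, s3⟩ := H ((J : A →L[𝕜] Y).comp T) x₀ (by rw [nc, hT]) hx (by simpa using h)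
  refine ⟨(J.symm : Y →L[𝕜] A).comp S, by rw [nc', s1], by simpa using s2, ?_⟩
  have : (J.symm : Y →L[𝕜] A).comp S - T = (J.symm : Y →L[𝕜] A).comp (S - (J : A →L[𝕜] Y).comp T) := by
    ext v; simp
  rw [this, nc']
  exact s3

end props

end Pool.Agent.H28BPB
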